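import Pool.Agent.H39.KP.Squares

/-!
# Kontsevich's period conjecture is the axiom of Archimedes for formal periods

The space of effective formal periods in the power series model of Ayoub: functions `f` of `z_0, z_1, …` (finitely many
variables) which are holomorphic near the closed unit polydisc and algebraic over `ℚ(z)`, modulo the relations of Stokes
`∂g/∂z_i - g|_{z_i = 1} + g|_{z_i = 0}`; the evaluation is the integral over the cube. We show, by formal subdivision of the
cube, that every class contains functions which are uniformly close to the constant `ev f` on the polydisc. So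

* a real formal period has a positive value if and only if it is the class of a square `g²`, `g > 0` (or of any power `g^m`);
* formal periods with nonzero value are classes of `m`-th powers of nowhere vanishing functions, for every `m`.

Therefore the value is determined by the squares (`q < ev f` iff `f - q` is a square, for rational `q`), and the kernel of
the evaluation consists of the infinitely small formal periods: the conjecture holds if and only if every real formal
period is up to sign (and powers of `π`) a square; if and only if there are no infinitesimals; if and only if the relations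
are closed for uniform convergence on the polydisc.
-/

namespace Pool.Agent.Results.MP_1eadae_ag.ArchimedeanOrder

open Pool.Agent.H39.KP

theorem result :
    -- the evaluation is well defined
    (∀ f ∈ O, ∀ g ∈ O, Eqv f g → ev f = ev g) ∧
    -- every class contains functions which are uniformly close to the value
    (∀ f ∈ O, ∀ ε > 0, ∃ g ∈ O, Eqv f g ∧ ∀ z : ℕ → ℂ, (∀ i, ‖z i‖ ≤ 1) → ‖g z - ev f‖ ≤ ε) ∧
    -- formal periods with nonzero value are `m`-th powers of nowhere vanishing functions
    (∀ f ∈ O, ev f ≠ 0 → ∀ m > 0, ∃ g ∈ O, (∀ z : ℕ → ℂ, (∀ i, ‖z i‖ ≤ 1) → g z ≠ 0) ∧ Eqv f fun z => g z ^ m) ∧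
    -- real formal periods with positive value are the squares of positive functions
    (∀ f ∈ O, IsReal f → (0 < (ev f).re ↔ ∃ g ∈ O, (∀ x : Cube, 0 < (g (pt x)).re ∧ (g (pt x)).im = 0) ∧
      Eqv f fun z => g z ^ 2)) ∧
    -- the conjecture holds iff every real formal period is up to sign a square
    (Conj ↔ ∀ f ∈ O, IsReal f → ∃ m : ℕ, ∃ g ∈ O, IsReal g ∧
      (Eqv (piMul m f) (fun z => g z ^ 2) ∨ Eqv (piMul m f) (fun z => -g z ^ 2))) ∧
    -- the conjecture holds iff the axiom of Archimedes holds
    (Conj ↔ ∀ f ∈ O, IsReal f →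
      (∀ N : ℕ, (∃ g ∈ O, IsReal g ∧ Eqv (fun z => ((1 / (N + 1) : ℚ) : ℂ) + f z) fun z => g z ^ 2) ∧
        ∃ g ∈ O, IsReal g ∧ Eqv (fun z => ((1 / (N + 1) : ℚ) : ℂ) - f z) fun z => g z ^ 2) → Zero f) ∧
    -- the conjecture holds iff formal periods with arbitrarily small representatives are zero
    (Conj ↔ ∀ f ∈ O, (∀ ε > 0, ∃ g ∈ O, Eqv f g ∧ ∀ z : ℕ → ℂ, (∀ i, ‖z i‖ ≤ 1) → ‖g z‖ ≤ ε) → Zero f) := by
  refine ⟨fun f hf g hg h => h.ev_eq hf.1 hg.1, fun f hf ε hε => ?_, fun f hf h0 m hm => complex_root hf h0 hm,
    fun f hf hr => ⟨fun h => ?_, ?_⟩, conj_iff_squares, conj_iff_archimedean, conj_iff_closed⟩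
  · obtain ⟨n, e, h⟩ := approx hf hε
    exact ⟨Sub n e f, O_Sub hf n e, eqv_Sub hf n e, h⟩
  · obtain ⟨g, hg, hp, -, he⟩ := real_root hf hr h (m := 2) (by norm_num)
    exact ⟨g, hg, hp, he⟩
  · rintro ⟨g, hg, hp, he⟩
    rw [he.ev_eq hf.1 (O_pow hg 2).1]
    exact ev_sq_pos hg hp

end Pool.Agent.Results.MP_1eadae_ag.ArchimedeanOrder
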