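import Pool.Agent.H39.KP.KFin2

/-!
# Formal periods are partition functions with finitely many kernels

Effective formal periods in the power series model of Ayoub: functions `f` of `z_0, z_1, …` (finitely many variables) which
are holomorphic near the closed unit polydisc and algebraic over `ℚ(z)`, modulo the relations of Stokes
`∂g/∂z_i - g|_{z_i = 1} + g|_{z_i = 0}`, with `g` of the same kind.

We show that there is a *finite* set `S` of polynomials `a₀ + a₁ x + a₂ y + a₃ t + a₄ x y` in three variables over `ℚ(i)`,
without zeros on the closed tridisc, such that after multiplication by a power of the formal period `π` (which is inverted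
in the algebra of formal periods) every class contains a linear combination over `ℚ(i)` of products

  `∏ 1 / a (z_{i}, z_{j}, z_{k})`,   `a ∈ S`,

where every variable occurs in at most three factors of a product. The integral of such a product is the partition function
of a graph (the kernels are the vertices, the variables are the edges, which join at most three vertices). So the algebraic
functions, the numerators, the large degrees, the many variables of one factor, the large coefficients and the repeated
variables are all eliminated, with the relations of Stokes only, and the conjecture of Kontsevich and Zagier is equivalent to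
the conjecture for these sums.

* `f` is replaced by a rational function over `ℚ(i)` (see `RationalFunctions`);
* the cube is cut (formally) in small dyadic boxes; on a small box the denominator is `c (1 + small)`;
* a polynomial is a circuit of operations `u, v ↦ (u + v) / 32, u v / 16, …`; one operation is removed from the argument of
  a function `F` with the contour integral of `F(ζ / 4) / (ζ - 4 v)` over a square, where `ζ` is an affine function of a new
  variable on each of `16` pieces; this is a relation of Stokes which introduces the class `2πi`;
* a numerator `v` is the contour integral of `1 / (ζ² (1 - ζ v / 4))`;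
* a variable which occurs several times is copied, one copy from the other, also with contour integrals; the scales of the
  copies are absorbed by the size of the boxes.
-/

namespace Pool.Agent.Results.MP_1eadae_ag.FinitelyManyKernels

open Pool.Agent.H39.KP

/-- the definition of `NFB` in one formula -/
theorem nfb_iff (S : Set (Fin 5 → ℂ)) (u : Fn) : NFB S u ↔ ∃ l : List (ℂ × Fn), (∀ p ∈ l, IsGauss p.1 ∧ MonoB S p.2) ∧
    ∀ z, u z = (l.map fun p => p.1 * p.2 z).sum := Iff.rfl

theorem result : ∃ S : Finset (Fin 5 → ℂ),
    -- the kernels have coefficients in `ℚ(i)` and no zeros on the closed tridisc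
    (∀ a ∈ S, (∀ i, IsGauss (a i)) ∧ ∀ x y t : ℂ, ‖x‖ ≤ 1 → ‖y‖ ≤ 1 → ‖t‖ ≤ 1 →
      a 0 + a 1 * x + a 2 * y + a 3 * t + a 4 * (x * y) ≠ 0) ∧
    -- every formal period is a combination of products of kernels, up to powers of `π`
    (∀ f ∈ O, ∃ m : ℕ, ∃ u, NFB S u ∧ Eqv (piMul m f) u ∧ (Real.pi : ℂ) ^ m * ev f = ev u) ∧
    -- the conjecture is equivalent to the conjecture for these combinations
    (Conj ↔ ∀ u, NFB S u → ev u = 0 → Zero u) := by
  refine ⟨finite_SS.toFinset, fun a ha => ?_, fun f hf => ?_, ?_⟩
  · obtain ⟨h1, h2⟩ := SS_good (finite_SS.mem_toFinset.1 ha)
    refine ⟨h1, fun x y t hx hy ht => h2 ![x, y, t] fun j => ?_⟩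
    fin_cases j
    · exact hx
    · exact hy
    · exact ht
  · rw [finite_SS.coe_toFinset]
    obtain ⟨m, u, hu, he⟩ := exists_NFB hf
    refine ⟨m, u, hu, he, ?_⟩
    rw [← ev_piMul hf]
    exact he.ev_eq (O_piMul hf m).1 (hu.nfs.mem_O fun a ha => SS_good ha).1
  · rw [finite_SS.coe_toFinset]
    exact conj_iff_NFB

end Pool.Agent.Results.MP_1eadae_ag.FinitelyManyKernels
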