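import Pool.Agent.H39.KP.RatFin

/-!
# Formal periods are integrals of rational functions

Effective formal periods in the power series model of Ayoub: functions `f` of `z_0, z_1, …` (finitely many variables) which
are holomorphic near the closed unit polydisc and algebraic over `ℚ(z)`, modulo the relations of Stokes
`∂g/∂z_i - g|_{z_i = 1} + g|_{z_i = 0}`, with `g` of the same kind.

We show that, after multiplication by a power of the formal period `π` (which is inverted in the algebra of formal periods),
every class contains `u + i v` with `u, v` rational functions over `ℚ` without poles on the closed polydisc, and one
rational function `u` if `f` is real. This is a statement about the *formal* periods: the algebraic function `f` is replaced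
by a rational function in more variables with the relations of Stokes only.

* the cube is cut (formally) in small boxes and then `f` is holomorphic on a very large polydisc;
* a root of a polynomial `P(z, w)` which is the only one in a disc is the integral of `w P_w / P` over a circle; the circle
  is parametrised by rational functions with coefficients in `ℚ(i)`, and the loop integral is `2πi` times the value:
  this is a relation of Stokes (`2πi f` is the class of the contour integral, with `2πi` a formal period);
* the places where the discriminant vanishes are avoided with a generic small translation, which is written as an
  interpolation in a new variable, again with the relations of Stokes; the functions which occur there are treated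
  recursively.

So the conjecture of Kontsevich and Zagier is a statement about integrals of rational functions over `ℚ`: it is enough to
show that `∫ u = 0` implies that `u` is a formal zero for such `u` (part 3), or that two positive rational functions with the
same integral are connected by volume preserving moves (part 4).
-/

namespace Pool.Agent.Results.MP_1eadae_ag.RationalFunctions

open Pool.Agent.H39.KP

theorem result :
    -- every formal period is rational over `ℚ(i)`, up to powers of `π`
    (∀ f ∈ O, ∃ m : ℕ, ∃ u v, RatQ u ∧ RatQ v ∧ Eqv (piMul m f) fun z => u z + Complex.I * v z) ∧
    -- every real formal period is rational over `ℚ`, up to powers of `π`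
    (∀ f ∈ O, IsReal f → ∃ m : ℕ, ∃ u, RatQ u ∧ Eqv (piMul m f) u ∧ (Real.pi : ℂ) ^ m * ev f = ev u) ∧
    -- the conjecture is equivalent to the conjecture for rational functions over `ℚ`
    (Conj ↔ ∀ u, RatQ u → ev u = 0 → Zero u) ∧
    -- the conjecture holds iff positive rational functions with the same integral are connected by moves
    (Conj ↔ ∀ u v, RatQ u → RatQ v → Pos u → Pos v → ev u = ev v → ∃ m : ℕ, Equidec (piMul m u) (piMul m v)) := by
  refine ⟨fun f hf => exists_ratQ hf, fun f hf hr => ?_, conj_iff_ratQ, conj_iff_ratQ_moves⟩
  obtain ⟨m, u, hu, he⟩ := exists_ratQ_real hf hr
  refine ⟨m, u, hu, he, ?_⟩
  rw [← ev_piMul hf]
  exact he.ev_eq (O_piMul hf m).1 hu.mem_O.1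

end Pool.Agent.Results.MP_1eadae_ag.RationalFunctions
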