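import Pool.Agent.H39.KP.Moves

/-!
# Kontsevich's period conjecture as a problem of equidecomposability (Hilbert's third problem)

Effective formal periods in the power series model of Ayoub: functions `f` of `z_0, z_1, …` (finitely many variables) which
are holomorphic near the closed unit polydisc and algebraic over `ℚ(z)`, modulo the relations of Stokes. A positive function
`f` (positive on the cube `[0, 1]^n`) is seen as the body `{(x, y) : 0 < y < f(x)}` over the cube, whose volume is `ev f`.

An algebraic diffeomorphism of the cube `Φ : z_i ↦ φ(z)` which moves one coordinate gives a volume preserving map from the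
body under `c ∂φ/∂z_i` to the cuboid of height `c`: the point `(x, y)` goes to `(Φ(x), y / (∂φ/∂z_i)(x))`. A move consists in
cutting the body under `F + c ∂φ/∂z_i` along the graph of `c ∂φ/∂z_i`, applying this map to the lower part and translating
the upper part in the vertical direction: the result is the body under `F + c`.

We show: two positive functions are the same formal period if and only if one body can be transformed to the other by
finitely many moves and inverse moves; the relations of Stokes (between real functions) are spanned by the relations
`∂φ/∂z_i = 1`. So Kontsevich's conjecture says that two bodies of the same volume can be transformed to each other by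
moves, after multiplication by a power of `π`. Every body can be transformed to a body which is arbitrarily close to a
cuboid.
-/

namespace Pool.Agent.Results.MP_1eadae_ag.VolumePreservingMoves

open Pool.Agent.H39.KP

theorem result :
    -- the relations between real functions are spanned by the functions `∂φ/∂z_i - 1`
    (∀ h : Cube → ℂ, (h ∈ Stokes ∧ ∀ x, (h x).im = 0) ↔ h ∈ Submodule.span ℚ
      {h : Cube → ℂ | ∃ (i : ℕ) (φ : Fn), Diffeo i φ ∧ h = fun x => pd i φ (pt x) - 1}) ∧
    -- positive functions are the same formal period iff they are connected by moves
    (∀ f ∈ O, ∀ g ∈ O, Pos f → Pos g → (Eqv f g ↔ Equidec f g)) ∧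
    -- every positive function is connected to functions which are uniformly close to a constant
    (∀ f ∈ O, Pos f → ∀ ε > 0, ∃ g ∈ O, Pos g ∧ Equidec f g ∧ ∀ z : ℕ → ℂ, (∀ i, ‖z i‖ ≤ 1) → ‖g z - ev f‖ ≤ ε) ∧
    -- the conjecture holds iff positive functions with the same integral are connected by moves, up to powers of `π`
    (Conj ↔ ∀ f ∈ O, ∀ g ∈ O, Pos f → Pos g → ev f = ev g → ∃ m : ℕ, Equidec (piMul m f) (piMul m g)) :=
  ⟨fun _ => mem_jac_iff.symm, fun _ hf _ hg hfp hgp => (equidec_iff hf hg hfp hgp).symm,
    fun _ hf hfp _ hε => exists_close hf hfp hε, conj_iff_equidec⟩

end Pool.Agent.Results.MP_1eadae_ag.VolumePreservingMoves
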